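import Pool.Agent.W719.AR.Rt
import Pool.Agent.W749.BS.Cont

/-!
AR-CNT: continuity at the root of unity.
-/

set_option autoImplicit false

namespace Pool.Agent.W397.AR

open Finset Filter Topology Matrix
open Pool.Agent.H550R3.Jones Pool.Agent.W711.HT Pool.Agent.W719.AR
open Pool.Agent.W719.BS (rot kw)
open Pool.Agent.W749.BS (mul_cont rot_cont br_v0_ne)
open Pool.Agent.H756R3.J (zpow_cont crossP_cont crossN_cont)

/-- entrywise continuity of a power -/
theorem pow_cont {ι : Type} [Fintype ι] [DecidableEq ι] {A : ℂ → Matrix ι ι ℂ} {v : ℂ}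
    (hA : ∀ p q, ContinuousAt (fun v => A v p q) v) (n : ℕ) :
    ∀ p q : ι, ContinuousAt (fun v => (A v ^ n) p q) v := by
  induction n with
  | zero =>
    intro p q
    simp only [pow_zero]
    exact continuousAt_const
  | succ n ih =>
    intro p q
    simp only [pow_succ]
    exact mul_cont ih hA p q

theorem op_cont {N : ℕ} {v : ℂ} (hv : v ≠ 0) (hN : ∀ k : ℕ, 0 < k → k < N → br v k ≠ 0)
    (t : Tr) : ∀ p q : Fin N × Fin N, ContinuousAt (fun v => op N v t p q) v := by
  induction t with
  | vx a =>
    intro p q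
    by_cases ha : 0 ≤ a
    · simp only [op, if_pos ha]
      exact pow_cont (crossP_cont hv hN) _ p q
    · simp only [op, if_neg ha]
      exact pow_cont (crossN_cont hv hN) _ p q
  | br t c iht ihc =>
    intro p q
    simp only [op]
    exact mul_cont iht (rot_cont hv hN ihc) p q

theorem jt_cont {N : ℕ} {v : ℂ} (hv : v ≠ 0) (hN : ∀ k : ℕ, 0 < k → k < N → br v k ≠ 0)
    (t : Tr) : ContinuousAt (jt t N) v := by
  unfold jt
  by_cases h : 0 < N
  · simp only [h, dite_true]
    unfold ptr
    refine tendsto_finsetSum _ fun x _ => ?_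
    refine ContinuousAt.mul ?_ ?_
    · unfold Pool.Agent.W719.BS.kw
      exact zpow_cont hv _
    · exact op_cont hv hN t _ _
  · simp only [h, dite_false]
    exact continuousAt_const

theorem cnt : S_CNT := by
  intro t N
  have h0 : vN N = Pool.Agent.W719.BS.v0 N := rfl
  rw [h0]
  exact jt_cont (Pool.Agent.W749.BS.v0_ne N) (fun k h1 h2 => br_v0_ne h1 h2) t

end Pool.Agent.W397.AR
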